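import Pool.Agent.Helper28.GW.DIFF

set_option autoImplicit false

open scoped ContDiff Topology
open Set Filter

namespace GW

lemma cinf_nat (hD : ST_DIFF) (n : ℕ) : ∀ (F : Type) [NormedAddCommGroup F] [NormedSpace ℝ F]
    [FiniteDimensional ℝ F] (X : ℝ × F → F) (φ : ℝ → F → F), ContDiff ℝ ∞ X →
    (∀ q, φ 0 q = q) → (∀ q, Sol X (fun s => φ s q)) →
    ∀ s ∈ Icc (0 : ℝ) 1, ContDiff ℝ n (φ s) := by
  induction n with
  | zero =>
    intro F _ _ _ X φ hX h0 hφ s hs
    obtain ⟨A, hA, _, _⟩ := hD F X φ hX h0 hφ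
    rw [Nat.cast_zero, contDiff_zero, continuous_iff_continuousAt]
    exact fun q => (hA s hs q).continuousAt
  | succ n ih =>
    intro F _ _ _ X φ hX h0 hφ s hs
    obtain ⟨A, hA, hA0, hA'⟩ := hD F X φ hX h0 hφ
    have hX' : ContDiff ℝ ∞ (fun z : ℝ × (F × (F →L[ℝ] F)) =>
        ((X (z.1, z.2.1), (diff_D X (z.1, z.2.1)).comp z.2.2) : F × (F →L[ℝ] F))) := by
      have h1 : ContDiff ℝ ∞ (fun z : ℝ × (F × (F →L[ℝ] F)) => (z.1, z.2.1)) :=
        contDiff_fst.prodMk (contDiff_fst.comp contDiff_snd)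
      exact (hX.comp h1).prodMk
        (((diff_smooth hX).comp h1).clm_comp (contDiff_snd.comp contDiff_snd))
    have h2 := ih (F × (F →L[ℝ] F)) _ (fun s z => (φ s z.1, (A s z.1).comp z.2)) hX'
      (by
        intro z
        simp only [h0, hA0, ContinuousLinearMap.id_comp])
      (by
        intro z s hs
        have h3 := hφ z.1 s hs
        have h4 := hA' z.1 s hs
        rw [diff_eqD hX] at h4
        have h5 : HasDerivWithinAt (fun s => (A s z.1).comp z.2)
            (((diff_D X (s, φ s z.1)).comp (A s z.1)).comp z.2) (Icc 0 1) s := by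
          have h6 := ((ContinuousLinearMap.compL ℝ F F F).flip z.2).hasFDerivAt.comp_hasDerivWithinAt
            s h4
          exact h6
        exact h3.prodMk h5) s hs
    have h7 : ContDiff ℝ n (fun q => A s q) := by
      have h8 : ContDiff ℝ n (fun q : F => ((q, ContinuousLinearMap.id ℝ F) :
          F × (F →L[ℝ] F))) := contDiff_id.prodMk contDiff_const
      have h9 := contDiff_snd.comp (h2.comp h8)
      have h10 : (fun q => A s q) = Prod.snd ∘
          ((fun z : F × (F →L[ℝ] F) => (φ s z.1, (A s z.1).comp z.2)) ∘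
            (fun q : F => ((q, ContinuousLinearMap.id ℝ F) : F × (F →L[ℝ] F)))) := by
        funext q
        simp
      rw [h10]
      exact h9
    rw [show ((n + 1 : ℕ) : WithTop ℕ∞) = (n : WithTop ℕ∞) + 1 by push_cast; rfl]
    exact contDiff_succ_iff_hasFDerivAt.mpr ⟨fun q => A s q, h7, fun q => hA s hs q⟩

theorem st_CINF (hD : ST_DIFF) : ST_CINF := by
  intro F _ _ _ X φ hX h0 hφ s hs
  exact contDiff_infty.mpr (fun n => cinf_nat hD n F X φ hX h0 hφ s hs)

end GW
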