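import Pool.Agent.Helper89.GW.Stmts

set_option autoImplicit false

open scoped ContDiff Topology
open Set Filter

namespace GW

/-- space derivative of a time dependent field -/
noncomputable def diff_D {F : Type} [NormedAddCommGroup F] [NormedSpace ℝ F] (X : ℝ × F → F)
    (z : ℝ × F) : F →L[ℝ] F := (fderiv ℝ X z).comp (ContinuousLinearMap.inr ℝ ℝ F)

lemma diff_hasD {F : Type} [NormedAddCommGroup F] [NormedSpace ℝ F] {X : ℝ × F → F}
    (hX : ContDiff ℝ ∞ X) (s : ℝ) (q : F) :
    HasFDerivAt (fun x => X (s, x)) (diff_D X (s, q)) q := by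
  have h1 : HasFDerivAt X (fderiv ℝ X (s, q)) (s, q) :=
    (hX.differentiable (by simp) (s, q)).hasFDerivAt
  exact h1.comp q (hasFDerivAt_prodMk_right s q)

lemma diff_eqD {F : Type} [NormedAddCommGroup F] [NormedSpace ℝ F] {X : ℝ × F → F}
    (hX : ContDiff ℝ ∞ X) (s : ℝ) (q : F) :
    fderiv ℝ (fun x => X (s, x)) q = diff_D X (s, q) := (diff_hasD hX s q).fderiv

lemma diff_smooth {F : Type} [NormedAddCommGroup F] [NormedSpace ℝ F] {X : ℝ × F → F}
    (hX : ContDiff ℝ ∞ X) : ContDiff ℝ ∞ (diff_D X) := by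
  unfold diff_D
  exact (hX.fderiv_right (m := ∞) (by simp)).clm_comp contDiff_const

/-- uniform differentiability along a compact trajectory -/
lemma diff_unif {F : Type} [NormedAddCommGroup F] [NormedSpace ℝ F] {X : ℝ × F → F}
    (hX : ContDiff ℝ ∞ X) (c : ℝ → F) (hc : ContinuousOn c (Icc 0 1)) (η : ℝ) (hη : 0 < η) :
    ∃ r > 0, ∀ s ∈ Icc (0 : ℝ) 1, ∀ y : F, ‖y - c s‖ < r →
      ‖X (s, y) - X (s, c s) - diff_D X (s, c s) (y - c s)‖ ≤ η * ‖y - c s‖ := by
  have hK : IsCompact ((fun s => (s, c s)) '' Icc (0 : ℝ) 1) :=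
    isCompact_Icc.image_of_continuousOn (continuousOn_id.prodMk hc)
  have h1 := hK.uniformContinuousAt_of_continuousAt (diff_D X)
    (fun a _ => (diff_smooth hX).continuous.continuousAt) (Metric.dist_mem_uniformity hη)
  obtain ⟨r, hr, h2⟩ := Metric.mem_uniformity_dist.mp h1
  refine ⟨r, hr, fun s hs y hy => ?_⟩
  have hconv : Convex ℝ (Metric.ball (c s) r) := convex_ball _ _
  have h3 : ∀ x ∈ Metric.ball (c s) r, ‖fderiv ℝ (fun x => X (s, x)) x - diff_D X (s, c s)‖ ≤ η := by
    intro x hx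
    rw [diff_eqD hX]
    have h4 : dist ((s, c s) : ℝ × F) (s, x) < r := by
      rw [Prod.dist_eq, dist_self]
      exact max_lt hr (by rw [dist_comm]; exact hx)
    have h5 := h2 h4 ⟨s, hs, rfl⟩
    have h6 : dist (diff_D X (s, c s)) (diff_D X (s, x)) < η := h5
    rw [dist_comm, dist_eq_norm] at h6
    exact h6.le
  exact hconv.norm_image_sub_le_of_norm_fderiv_le'
    (fun x _ => (diff_hasD hX s x).differentiableAt) h3 (Metric.mem_ball_self hr)
    (by rw [Metric.mem_ball, dist_eq_norm]; exact hy)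

lemma diff_ici {F : Type} [NormedAddCommGroup F] [NormedSpace ℝ F] {f : ℝ → F} {f' : F} {s : ℝ}
    (hs : s ∈ Ico (0 : ℝ) 1) (h : HasDerivWithinAt f f' (Icc 0 1) s) :
    HasDerivWithinAt f f' (Ici s) s :=
  h.mono_of_mem_nhdsWithin (Icc_mem_nhdsGE_of_mem hs)

theorem st_DIFF (_hU : ST_UNIQ) (hDEP : ST_DEP) (hLINO : ST_LINO) : ST_DIFF := by
  intro F _ _ _ X φ hX h0 hφ
  have hcont : ∀ q, ContinuousOn (fun s => φ s q) (Icc 0 1) := fun q s hs =>
    (hφ q s hs).continuousWithinAt
  have hMc : ∀ q, ContinuousOn (fun s => diff_D X (s, φ s q)) (Icc 0 1) := fun q =>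
    (diff_smooth hX).continuous.comp_continuousOn (continuousOn_id.prodMk (hcont q))
  have hex : ∀ q, ∃ c : ℝ → (F →L[ℝ] F), c 0 = ContinuousLinearMap.id ℝ F ∧
      ∀ s ∈ Icc (0 : ℝ) 1, HasDerivWithinAt c
        ((ContinuousLinearMap.compL ℝ F F F (diff_D X (s, φ s q))) (c s)) (Icc 0 1) s := by
    intro q
    refine hLINO (F →L[ℝ] F) (fun s => ContinuousLinearMap.compL ℝ F F F (diff_D X (s, φ s q)))
      ?_ (ContinuousLinearMap.id ℝ F)
    exact (ContinuousLinearMap.continuous _).comp_continuousOn (hMc q)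
  choose A hA0 hA using hex
  refine ⟨fun s q => A q s, ?_, hA0, ?_⟩
  · intro s hs q
    rw [hasFDerivAt_iff_isLittleO_nhds_zero, Asymptotics.isLittleO_iff]
    intro ε hε
    obtain ⟨δ, hδ, C, hC, hdep⟩ := hDEP F X hX (fun s => φ s q) (hφ q)
    obtain ⟨k0, hk0⟩ := isCompact_Icc.exists_bound_of_continuousOn (hMc q)
    set k := max k0 1 with hk
    have hk1 : 1 ≤ k := le_max_right _ _
    have hkpos : 0 < k := by linarith
    have hkb : ∀ s ∈ Icc (0 : ℝ) 1, ‖diff_D X (s, φ s q)‖ ≤ k := fun s hs =>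
      (hk0 s hs).trans (le_max_left _ _)
    set η := ε / (C * Real.exp k) with hη
    have hηpos : 0 < η := by positivity
    obtain ⟨r, hr, hunif⟩ := diff_unif hX (fun s => φ s q) (hcont q) η hηpos
    have hev : ∀ᶠ h : F in 𝓝 0, ‖h‖ < min δ (r / C) := by
      have := Metric.ball_mem_nhds (0 : F) (show 0 < min δ (r / C) by positivity)
      filter_upwards [this] with h hh
      simpa using hh
    filter_upwards [hev] with h hh
    have hh1 : ‖h‖ < δ := lt_of_lt_of_le hh (min_le_left _ _)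
    have hh2 : C * ‖h‖ < r := by
      have := lt_of_lt_of_le hh (min_le_right _ _)
      rwa [lt_div_iff₀ hC, mul_comm] at this
    have hd : ∀ s ∈ Icc (0 : ℝ) 1, ‖φ s (q + h) - φ s q‖ ≤ C * ‖h‖ := by
      intro s hs
      have := hdep (fun s => φ s (q + h)) (hφ (q + h)) (by simpa [h0] using hh1) s hs
      simpa [h0] using this
    set e : ℝ → F := fun s => φ s (q + h) - φ s q - A q s h with he
    have hderA : ∀ s ∈ Icc (0 : ℝ) 1, HasDerivWithinAt (fun s => A q s h)
        (diff_D X (s, φ s q) (A q s h)) (Icc 0 1) s := by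
      intro s hs
      have h1 := hA q s hs
      have h2 := (ContinuousLinearMap.apply ℝ F h).hasFDerivAt.comp_hasDerivWithinAt s h1
      exact h2
    have hder : ∀ s ∈ Icc (0 : ℝ) 1, HasDerivWithinAt e
        (X (s, φ s (q + h)) - X (s, φ s q) - diff_D X (s, φ s q) (A q s h)) (Icc 0 1) s :=
      fun s hs => ((hφ (q + h) s hs).sub (hφ q s hs)).sub (hderA s hs)
    have hgr := norm_le_gronwallBound_of_norm_deriv_right_le (f := e)
      (f' := fun s => X (s, φ s (q + h)) - X (s, φ s q) - diff_D X (s, φ s q) (A q s h))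
      (δ := 0) (K := k) (ε := η * (C * ‖h‖)) (a := 0) (b := 1)
      (fun s hs => (hder s hs).continuousWithinAt)
      (fun s hs => diff_ici hs (hder s (Ico_subset_Icc_self hs)))
      (by simp [he, h0, hA0]) (by
        intro s hs
        have hs' := Ico_subset_Icc_self hs
        have h1 := hd s hs'
        have h2 := hunif s hs' (φ s (q + h)) (lt_of_le_of_lt h1 hh2)
        have h3 : X (s, φ s (q + h)) - X (s, φ s q) - diff_D X (s, φ s q) (A q s h) =
            diff_D X (s, φ s q) (e s) + (X (s, φ s (q + h)) - X (s, φ s q) -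
              diff_D X (s, φ s q) (φ s (q + h) - φ s q)) := by
          simp only [he, map_sub]
          abel
        rw [h3]
        refine (norm_add_le _ _).trans (add_le_add ?_ ?_)
        · exact ((diff_D X (s, φ s q)).le_opNorm (e s)).trans
            (mul_le_mul_of_nonneg_right (hkb s hs') (norm_nonneg _))
        · exact h2.trans (mul_le_mul_of_nonneg_left h1 hηpos.le))
      s hs
    have hfin : ‖e s‖ ≤ ε * ‖h‖ := by
      refine hgr.trans ?_
      rw [gronwallBound_of_K_ne_0 hkpos.ne']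
      show 0 * Real.exp (k * (s - 0)) + η * (C * ‖h‖) / k * (Real.exp (k * (s - 0)) - 1) ≤ ε * ‖h‖
      rw [zero_mul, zero_add]
      have h4 : Real.exp (k * (s - 0)) - 1 ≤ Real.exp k := by
        have h5 : Real.exp (k * (s - 0)) ≤ Real.exp k := by
          apply Real.exp_le_exp.mpr
          have := hs.2
          nlinarith
        linarith
      have h6 : η * (C * ‖h‖) / k ≤ η * (C * ‖h‖) := div_le_self (by positivity) hk1
      calc η * (C * ‖h‖) / k * (Real.exp (k * (s - 0)) - 1)
          ≤ η * (C * ‖h‖) / k * Real.exp k :=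
            mul_le_mul_of_nonneg_left h4 (by positivity)
        _ ≤ η * (C * ‖h‖) * Real.exp k :=
            mul_le_mul_of_nonneg_right h6 (Real.exp_nonneg _)
        _ = ε * ‖h‖ := by
            rw [hη]
            field_simp
    exact hfin
  · intro q s hs
    rw [diff_eqD hX]
    exact hA q s hs

end GW
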